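import Pool.Agent.R424.EX.Link

/-!
# MP_dd2a7c_co: the polynomial Freiman-Ruzsa conjecture modulo groups of bounded exponent

`Concl C K A` (of the starting library of this problem, file `R92.Star.Pfr`) is the conclusion of Q1 for
the set `A`: `A` is covered by `C K ^ C` translates of a centred convex coset progression of dimension
at most `C log (2 K)` and volume at most `|A|`. `Q1For C Γ` says that Q1 holds with the constant `C`
for the group `Γ`. `hull X` is the set of the integer points of the convex hull of the set `X` of
integer points.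

**Theorem.** Let `m` be a positive integer, `f : Γ → Γ'` a surjective homomorphism of abelian groups
whose kernel is killed by `m`, and `A` a nonempty finite subset of `Γ` with `|A + A| ≤ K |A|`.
1. If the image `f (A)` (which has doubling at most `K ^ 3`) satisfies the conclusion of Q1, then so
   does `A`, with a constant which depends only on `m` and the constant for `f (A)`. No structure of
   `A` in the direction of the kernel is assumed. In particular Q1 for `Γ'` implies Q1 for `Γ`.
2. Q1 for the subgroup `m Γ` implies Q1 for `Γ`.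
3. If Q1 holds for the groups `ℤ ^ d` with a constant which does not depend on `d`, then it holds,
   with another constant, for all abelian groups whose torsion elements are killed by `m`.
4. `A` satisfies the conclusion of Q1, with a constant which depends only on `m`, if `Γ' = ℤ ^ d`,
   `d` arbitrary, and `f (A)` is dense in its convex hull, or contains with every point the box
   spanned by this point and the origin.

For `Γ' = 0`, 1. is the known case of the groups of bounded exponent, which is used in the proof.
The point of 1. and 2. is that the extension need not split, `Γ'` can have any torsion, and the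
coset progression for `f (A)` can have any dimension and any finite subgroup `H`.

Proof. Let `f (A)` be commensurable with `ψ (X) + H`, and `W = f⁻¹ (H)`. The subgroup `m W` is finite
and it is covered by few translates of `2 A - 2 A`, as `m A` is (Horner's scheme and the covering
lemma of Ruzsa). Modulo `m W` the group `W` has exponent `m`; by Marton's conjecture for groups of
bounded exponent the set `(A - A) ∩ W` is commensurable with a subgroup `V ≥ m W` of `W`. The
dilate `m A` is then commensurable with a subset of `m ψ' (X) + V`, where `ψ'` is a lift of `ψ`; it is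
a large subset because `ψ (X) - ψ (X)` has few elements killed by `m` modulo `H`, since `X` is
covered by few translates of `m X - m X`. Finally `A + m A + V` is not much larger than `A`.
-/

set_option autoImplicit false

namespace Pool.Agent.Results.MP_dd2a7c_co.BoundedTorsionExtensions

open Finset Pool.Agent.Y806.DF Pool.Agent.R92.Star Pool.Agent.R424.EX
open scoped Pointwise

universe u v

/-- Q1 with the constant `C` for the finite subsets of the group `Γ`. -/
def Q1For (C : ℝ) (Γ : Type*) [AddCommGroup Γ] [DecidableEq Γ] : Prop :=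
  ∀ (K : ℝ) (A : Finset Γ), A.Nonempty → ((A + A).card : ℝ) ≤ K * A.card → Concl C K A

/-- **The polynomial Freiman-Ruzsa conjecture modulo groups of bounded exponent.** -/
theorem result (m : ℕ) (hm : 0 < m) :
    -- extensions
    (∀ C : ℝ, ∃ C' : ℝ, ∀ (Γ : Type u) (Γ' : Type v) [AddCommGroup Γ] [DecidableEq Γ]
      [AddCommGroup Γ'] [DecidableEq Γ'] (f : Γ →+ Γ'), Function.Surjective f →
      (∀ x, f x = 0 → m • x = 0) →
      (∀ (K : ℝ) (A : Finset Γ), A.Nonempty → ((A + A).card : ℝ) ≤ K * A.card →
        ((A.image f + A.image f).card : ℝ) ≤ K ^ 3 * (A.image f).card ∧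
        (Concl C (K ^ 3) (A.image f) → Concl C' K A)) ∧
      (Q1For C Γ' → Q1For C' Γ)) ∧
    -- the subgroup `m Γ`
    (∀ C : ℝ, ∃ C' : ℝ, ∀ (Γ : Type u) [AddCommGroup Γ] [DecidableEq Γ],
      Q1For C (nsmulAddMonoidHom m : Γ →+ Γ).range → Q1For C' Γ) ∧
    -- torsion-free groups
    (∀ C : ℝ, ∃ C' : ℝ, (∀ d : ℕ, Q1For C (Fin d → ℤ)) →
      ∀ (Γ : Type u) [AddCommGroup Γ] [DecidableEq Γ],
        (∀ x : Γ, (∃ k : ℕ, 0 < k ∧ k • x = 0) → m • x = 0) → Q1For C' Γ) ∧
    -- sets with a dense or star-shaped image in `ℤ ^ d`
    (∃ C' : ℝ, ∀ (Γ : Type u) [AddCommGroup Γ] [DecidableEq Γ] (d : ℕ)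
      (f : Γ →+ (Fin d → ℤ)), Function.Surjective f → (∀ x, f x = 0 → m • x = 0) →
      ∀ (K : ℝ) (A : Finset Γ), A.Nonempty → ((A + A).card : ℝ) ≤ K * A.card →
      ((hull (A.image f)).ncard : ℝ) ≤ K * (A.image f).card → Concl C' K A) ∧
    (∃ C' : ℝ, ∀ (Γ : Type u) [AddCommGroup Γ] [DecidableEq Γ] (d : ℕ)
      (f : Γ →+ (Fin d → ℤ)), Function.Surjective f → (∀ x, f x = 0 → m • x = 0) →
      ∀ (K : ℝ) (A : Finset Γ), A.Nonempty → ((A + A).card : ℝ) ≤ K * A.card →
      (∀ x ∈ A.image f, ∀ y : Fin d → ℤ, (∀ i, Btw (y i) (x i)) → y ∈ A.image f) →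
      Concl C' K A) := by
  refine ⟨fun C => ?_, fun C => ?_, fun C => ?_, ext_hull m hm, ext_star m hm⟩
  · obtain ⟨C', hC'⟩ := Pool.Agent.R424.EX.ext.{u, v} C m hm
    refine ⟨C', fun Γ Γ' _ _ _ _ f hf hker => ⟨fun K A hA hK =>
      ⟨image_doubling f hA hK, hC' Γ Γ' f hf hker K A hA hK⟩, fun h K A hA hK => ?_⟩⟩
    exact hC' Γ Γ' f hf hker K A hA hK (h _ _ (hA.image f) (image_doubling f hA hK))
  · obtain ⟨C', hC'⟩ := Pool.Agent.R424.EX.ext.{u, u} C m hm
    refine ⟨C', fun Γ _ _ h K A hA hK => ?_⟩
    exact hC' Γ _ (nsmulAddMonoidHom m : Γ →+ Γ).rangeRestrict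
      (AddMonoidHom.rangeRestrict_surjective _)
      (fun x hx => congrArg (fun w : (nsmulAddMonoidHom m : Γ →+ Γ).range => (w : Γ)) hx)
      K A hA hK (h _ _ (hA.image _) (image_doubling _ hA hK))
  · obtain ⟨C', hC'⟩ := ext_free.{u} C m hm
    exact ⟨C', fun h Γ _ _ htor => hC' (fun d K B hB hK => h d K B hB hK) Γ htor⟩

end Pool.Agent.Results.MP_dd2a7c_co.BoundedTorsionExtensions
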