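import Mathlib
import Pool.Agent.R849.IS.Pfr

/-!
# The polynomial Freiman-Ruzsa conjecture: almost constant homomorphisms can be removed

Let `Γ` be an abelian group and `A ⊆ Γ` finite and nonempty with `|A + A| ≤ K |A|`. Let `F` be any
family of subgroups, finite or infinite, such that each `G ∈ F` has a coset which contains all but
`|A| / L` elements of `A`, where `log L > 10` (for example: `F` consists of the kernels of
homomorphisms each of which is constant on `A` up to `|A| / L` exceptions). The exceptions may be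
different for different members of `F`, so that they may cover `A`, and `F` may be arbitrarily large.

1. A single coset of the intersection of all members of `F` contains at least
   `|A| / K ^ (1 / (1 - 10 / log L))` elements of `A`, and `A` is covered by
   `K ^ (1 + 1 / (1 - 10 / log L))` cosets of this intersection.
2. So Q1 for `A` (`Concl` is its conclusion) follows from Q1 for the finite subsets of the
   intersection, with a constant which depends only on the constant there (`L = exp 20`).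
3. If the intersection has bounded exponent `m` (`L = exp 20`), then `A` is covered by
   `(2 K) ^ (246033 (⌊log₂ m⌋ + 1))` cosets of a finite subgroup of order at most `|A|`, although `Γ`
   is arbitrary.
4. The case of a product: `A ⊆ ∏ G i × H` where the `G i` are arbitrary abelian groups, `m H = 0`, and
   each of the coordinates in the `G i` is constant on `A` up to `exp (-20) |A|` exceptions.

Proof: let `x`, `y` be independent and uniform on `A` and let `z x` be the vector of the cosets of `x`.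
Since every coordinate of `z` is almost constant, the entropy of `z x + z y` is at least
`2 (1 - 5 / log L)` times the entropy of `z x`, by exposing the coordinates one by one (this is the
inequality `two` of the starting library `Y359.PE`, there used for the valuations of products of
integers). The entropy of `x + y` is at least the entropy of `z x + z y` plus the entropy of `x` given
`z x`, and at most `log |A + A|`. Hence the entropy of `z x` is at most `(1 - 10 / log L)⁻¹ log K`. The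
rest is Ruzsa's covering lemma and, for 2 and 3, the theorems of the files `R92.Star.Pfr` (helper92),
`Y806.DF` and `TH404.Tor` (bounded torsion).
-/

set_option autoImplicit false

namespace Pool.Agent.Results.MP_dd2a7c_co.IntersectionsOfSubgroups

open Finset
open scoped Pointwise
open Pool.Agent.R92.Star Pool.Agent.R849.IS

universe u

theorem result :
    (∀ (Γ : Type u) [AddCommGroup Γ] [DecidableEq Γ] (K L : ℝ) (A : Finset Γ)
      (F : Set (AddSubgroup Γ)), A.Nonempty → ((A + A).card : ℝ) ≤ K * A.card →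
      1 < L → 10 < Real.log L →
      (∀ G ∈ F, ∃ e : Γ, L * ({a | a ∈ A ∧ a - e ∉ G}.ncard : ℝ) ≤ A.card) →
      (∃ g ∈ A, (A.card : ℝ) ≤ K ^ (1 / (1 - 10 / Real.log L)) *
        {a | a ∈ A ∧ a - g ∈ sInf F}.ncard) ∧
      ∃ T ⊆ A, (T.card : ℝ) ≤ K ^ (1 + 1 / (1 - 10 / Real.log L)) ∧
        ∀ a ∈ A, ∃ t ∈ T, a - t ∈ sInf F) ∧
    (∀ C : ℝ, ∃ C' : ℝ, ∀ (Γ : Type u) [AddCommGroup Γ] [DecidableEq Γ]
      (F : Set (AddSubgroup Γ)) [DecidableEq (sInf F : AddSubgroup Γ)],
      (∀ (K : ℝ) (S : Finset (sInf F : AddSubgroup Γ)), S.Nonempty →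
        ((S + S).card : ℝ) ≤ K * S.card → Concl C K S) →
      ∀ (K : ℝ) (A : Finset Γ), A.Nonempty → ((A + A).card : ℝ) ≤ K * A.card →
      (∀ G ∈ F, ∃ e : Γ, Real.exp 20 * ({a | a ∈ A ∧ a - e ∉ G}.ncard : ℝ) ≤ A.card) →
      Concl C' K A) ∧
    (∀ (Γ : Type u) [AddCommGroup Γ] [DecidableEq Γ] (F : Set (AddSubgroup Γ)) (m : ℕ), 0 < m →
      (∀ x ∈ sInf F, m • x = 0) →
      ∀ (K : ℝ) (A : Finset Γ), A.Nonempty → ((A + A).card : ℝ) ≤ K * A.card →
      (∀ G ∈ F, ∃ e : Γ, Real.exp 20 * ({a | a ∈ A ∧ a - e ∉ G}.ncard : ℝ) ≤ A.card) →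
      ∃ (H : AddSubgroup Γ) (T : Finset Γ), Finite H ∧ Nat.card H ≤ A.card ∧
        (T.card : ℝ) ≤ (2 * K) ^ (246033 * (Nat.log 2 m + 1)) ∧
        ∀ a ∈ A, ∃ t ∈ T, a - t ∈ H) ∧
    (∀ (ι : Type u) (G : ι → Type u) [∀ i, AddCommGroup (G i)] (H : Type u) [AddCommGroup H]
      [DecidableEq ((∀ i, G i) × H)] (m : ℕ), 0 < m → (∀ x : H, m • x = 0) →
      ∀ (K : ℝ) (A : Finset ((∀ i, G i) × H)), A.Nonempty →
      ((A + A).card : ℝ) ≤ K * A.card →
      (∀ i, ∃ c : G i, Real.exp 20 * ({a | a ∈ A ∧ a.1 i ≠ c}.ncard : ℝ) ≤ A.card) →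
      ∃ (V : AddSubgroup ((∀ i, G i) × H)) (T : Finset ((∀ i, G i) × H)), Finite V ∧
        Nat.card V ≤ A.card ∧ (T.card : ℝ) ≤ (2 * K) ^ (246033 * (Nat.log 2 m + 1)) ∧
        ∀ a ∈ A, ∃ t ∈ T, a - t ∈ V) := by
  classical
  have hlog : Real.log (Real.exp 20) = 20 := Real.log_exp 20
  have hexp : 1 < Real.exp 20 := Real.one_lt_exp_iff.2 (by norm_num)
  have hl20 : 10 < Real.log (Real.exp 20) := by
    rw [hlog]
    norm_num
  have hsq : ∀ K : ℝ, K ^ (1 / (1 - 10 / Real.log (Real.exp 20))) = K ^ 2 := by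
    intro K
    rw [hlog]
    norm_num
  -- the popular coset for `L = exp 20`
  have key : ∀ (Γ : Type u) [AddCommGroup Γ] [DecidableEq Γ] (F : Set (AddSubgroup Γ)) (K : ℝ)
      (A : Finset Γ), A.Nonempty → ((A + A).card : ℝ) ≤ K * A.card →
      (∀ G ∈ F, ∃ e : Γ, Real.exp 20 * ({a | a ∈ A ∧ a - e ∉ G}.ncard : ℝ) ≤ A.card) →
      ∃ g, (A.card : ℝ) ≤ K ^ 2 * (sec (sInf F) A g).card := by
    intro Γ _ _ F K A hA hK hF
    obtain ⟨g, hg, h⟩ := inter' hA hK hexp hl20 F hF
    refine ⟨g, ?_⟩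
    rw [hsq] at h
    rw [card_sec, ← ncard_eq]
    exact h
  have hthree : ∀ (Γ : Type u) [AddCommGroup Γ] [DecidableEq Γ] (F : Set (AddSubgroup Γ)) (m : ℕ),
      0 < m → (∀ x ∈ sInf F, m • x = 0) →
      ∀ (K : ℝ) (A : Finset Γ), A.Nonempty → ((A + A).card : ℝ) ≤ K * A.card →
      (∀ G ∈ F, ∃ e : Γ, Real.exp 20 * ({a | a ∈ A ∧ a - e ∉ G}.ncard : ℝ) ≤ A.card) →
      ∃ (H : AddSubgroup Γ) (T : Finset Γ), Finite H ∧ Nat.card H ≤ A.card ∧
        (T.card : ℝ) ≤ (2 * K) ^ (246033 * (Nat.log 2 m + 1)) ∧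
        ∀ a ∈ A, ∃ t ∈ T, a - t ∈ H := by
    intro Γ _ _ F m hm hF0 K A hA hK hF
    obtain ⟨g, hg⟩ := key Γ F K A hA hK hF
    exact torsion (sInf F) hm hF0 hA hK hg
  refine ⟨?_, ?_, hthree, ?_⟩
  · intro Γ _ _ K L A F hA hK hL hl hF
    obtain ⟨g, hg, h⟩ := inter' hA hK hL hl F hF
    have hN : (0 : ℝ) < A.card := by exact_mod_cast card_pos.2 hA
    have hAA : (A.card : ℝ) ≤ (A + A).card := by
      exact_mod_cast card_le_card_add_right hA
    have hK1 : 1 ≤ K := by nlinarith
    refine ⟨⟨g, hg, h⟩, ?_⟩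
    · rw [ncard_eq, ← card_sec] at h
      obtain ⟨T, hTA, hT, hcov⟩ := cosets (sInf F) hA hK (by linarith) h
      refine ⟨T, hTA, ?_, fun a ha => ?_⟩
      · rw [Real.rpow_add (by linarith), Real.rpow_one]
        exact hT
      · obtain ⟨t, ht, x, -, y, -, rfl⟩ := hcov a ha
        refine ⟨t, ht, ?_⟩
        rw [add_sub_cancel_left]
        exact (x - y).2
  · intro C
    obtain ⟨C', hC'⟩ := Pool.Agent.R849.IS.transfer.{u} C
    refine ⟨C', fun Γ _ _ F _ hS K A hA hK hF => ?_⟩
    obtain ⟨g, hg⟩ := key Γ F K A hA hK hF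
    exact hC' Γ (sInf F) hS K A g hA hK hg
  · intro ι G _ H _ _ m hm hH K A hA hK hc
    let φ : ∀ i, ((∀ i, G i) × H) →+ G i := fun i =>
      (Pi.evalAddMonoidHom G i).comp (AddMonoidHom.fst (∀ i, G i) H)
    refine hthree ((∀ i, G i) × H) (Set.range fun i => (φ i).ker) m hm ?_ K A hA hK ?_
    · intro x hx
      rw [AddSubgroup.mem_sInf] at hx
      have h1 : x.1 = 0 := by
        funext i
        exact hx _ ⟨i, rfl⟩
      refine Prod.ext ?_ ?_
      · show m • x.1 = 0
        rw [h1, smul_zero]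
      · exact hH x.2
    · rintro _ ⟨i, rfl⟩
      obtain ⟨c, hc'⟩ := hc i
      refine ⟨(Pi.single i c, 0), ?_⟩
      have h1 : {a | a ∈ A ∧ a - ((Pi.single i c, 0) : (∀ i, G i) × H) ∉ (φ i).ker} =
          {a | a ∈ A ∧ a.1 i ≠ c} := by
        ext a
        refine and_congr_right fun _ => not_congr ?_
        show a.1 i - (Pi.single i c : ∀ i, G i) i = 0 ↔ a.1 i = c
        rw [Pi.single_eq_same, sub_eq_zero]
      show Real.exp 20 *
        ({a | a ∈ A ∧ a - ((Pi.single i c, 0) : (∀ i, G i) × H) ∉ (φ i).ker}.ncard : ℝ) ≤ A.card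
      rw [h1]
      exact hc'

end Pool.Agent.Results.MP_dd2a7c_co.IntersectionsOfSubgroups
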