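import Pool.Agent.R92.Star.Pfr

/-!
# The polynomial Freiman-Ruzsa conjecture for star-shaped sets, in every dimension

A finite set `A ⊆ ℤ^d × G` is star-shaped (`Star A`) if it is closed under moving the integer
coordinates towards `0`: for each `g`, the set of the `x` with `(x, g) ∈ A` is a union of boxes (of any
sizes and in any orthants) which contain `0`. `Btw y x` says that `y` is between `0` and `x`.

`Concl C K A` is the conclusion of Q1 for `A` with the constant `C`.

The case `G = 0` is known: it is a starting result (`BoxAnchored`, with the exponent 10) of the problem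
MP_626a77_co. The case `d = 0` of part (3) is the bounded torsion theorem. New is the mixed case: the
integer coordinates can be removed at the cost of a factor `K ^ O(1)`, uniformly in `d` and in the
group `G`, which is arbitrary.

Proof. In dimension one, there is an inequality between the entropy of the sum of two integer-valued
variables which are unimodal at `0` and the cost of replacing each of them by the uniform law on an
interval. By the chain rule this inequality tensorises, so that nothing is lost when the dimension
grows. An induction over the coordinates, with laws on the fibres which need not be uniform, finds the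
box.
-/

set_option autoImplicit false

namespace Pool.Agent.Results.MP_dd2a7c_co.StarShaped

open Finset
open scoped Pointwise
open Pool.Agent.R92.Star

universe u

/-- **Star-shaped sets.** Let `A ⊆ ℤ^d × G` be finite, nonempty, star-shaped, with `|A + A| ≤ K |A|`.
(1) `A` contains the product of a box and of a set `S ⊆ G` with `|S - S| ≤ K ^ 2 |S|` which has at
least `|A| / K ^ 20000000` elements: no constant depends on `d`.
(2) If the finite subsets of `G` satisfy the conclusion of Q1 with the constant `C`, then the
star-shaped subsets of `ℤ^d × G` satisfy it with a constant `C'` which depends on `C` only.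
(3) Q1 is true of the star-shaped subsets of `ℤ^d × G` for all `d` and all `G` with `m G = 0`, with a
constant that depends on `m` only. -/
theorem result :
    (∀ (G : Type u) [AddCommGroup G] [DecidableEq G] (d : ℕ) (K : ℝ)
      (A : Finset ((Fin d → ℤ) × G)), A.Nonempty → Pool.Agent.R92.Star.Star A → ((A + A).card : ℝ) ≤ K * A.card →
      ∃ (x : Fin d → ℤ) (S : Finset G), S.Nonempty ∧
        (∀ y : Fin d → ℤ, (∀ i, Btw (y i) (x i)) → ∀ g ∈ S, (y, g) ∈ A) ∧
        (A.card : ℝ) ≤ K ^ 20000000 * ((∏ i, (|(x i : ℝ)| + 1)) * S.card) ∧
        ((S - S).card : ℝ) ≤ K ^ 2 * S.card) ∧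
    (∀ C : ℝ, ∃ C' : ℝ, ∀ (G : Type u) [AddCommGroup G] [DecidableEq G],
      (∀ (K : ℝ) (S : Finset G), S.Nonempty → ((S + S).card : ℝ) ≤ K * S.card → Concl C K S) →
      ∀ (d : ℕ) (K : ℝ) (A : Finset ((Fin d → ℤ) × G)), A.Nonempty → Pool.Agent.R92.Star.Star A →
        ((A + A).card : ℝ) ≤ K * A.card → Concl C' K A) ∧
    (∀ m : ℕ, 0 < m → ∃ C : ℝ, ∀ (G : Type u) [AddCommGroup G] [DecidableEq G],
      (∀ g : G, m • g = 0) →
      ∀ (d : ℕ) (K : ℝ) (A : Finset ((Fin d → ℤ) × G)), A.Nonempty → Pool.Agent.R92.Star.Star A →
        ((A + A).card : ℝ) ≤ K * A.card → Concl C K A) := by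
  refine ⟨?_, transfer, ?_⟩
  · intro G _ _ d K A hA hS hK
    exact structure_thm hA hS hK
  · intro m hm
    obtain ⟨C, hC⟩ := torsion_concl.{u} m hm
    obtain ⟨C', hC'⟩ := transfer.{u} C
    refine ⟨C', ?_⟩
    intro G _ _ hG d K A hA hS hK
    exact hC' G (hC G hG) d K A hA hS hK

end Pool.Agent.Results.MP_dd2a7c_co.StarShaped
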