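import Mathlib
import Pool.Agent.R111.PM.Fin

/-!
# The polynomial Freiman-Ruzsa conjecture for modules over arbitrary rings

Let `R` be any ring (not necessarily commutative, finite or infinite), let `M` be an `R`-module and
`A ⊆ M` finite and nonempty with `|A + r A| ≤ K |A|` for all `r ∈ R`. Then `A` is covered by
`64 K ^ 59468` cosets of one finite `R`-SUBMODULE `N` with `|N| ≤ 64 K ^ 59466 |A|`. The exponents do
not depend on `R`, `M`, and up to them this is a characterisation (the converse is (3), second part).
For `R = ℤ` this is the starting result `UniformDilates` (a finite subgroup); new is the invariance: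
`R` may be a finite field of any order (`N` is a subspace over it), a ring of matrices or of algebraic
integers, a group ring (`N` is a subgroup invariant under a group of automorphisms of `M`), or
`R = End M` (`N` is fully invariant).

More generally (2): let `Φ` be a group of endomorphisms of the abelian group `Γ` (closed under
addition only) which contains the identity, and `|A + φ(A)| ≤ K |A|` for all `φ ∈ Φ`. Then there are
finite subgroups `H₀ ≤ H₁` of `Γ`, `|H₁| ≤ 64 K ^ 59466 |A|`, all `φ ∈ Φ` map `H₀` into `H₁`, and `A` is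
covered by `64 K ^ 59468` cosets of `H₀`.

The new ingredient is (1), the compression of a group of homomorphisms with small images: let `L` be
a subgroup of `Hom(H, Q)`, `H` and `Q` arbitrary abelian groups, and let `|f(H)| ≤ n` for all `f ∈ L`.
Then there are subgroups `H₀` of `H` of index at most `n ^ 2` and `P` of `Q` of order at most `n ^ 2`
with `f(H₀) ⊆ P` for all `f ∈ L` at once. For vector spaces over a large field this is the inequality
between the rank and the noncommutative rank of a linear space of matrices; the proof here uses no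
field, no scalars and no genericity: if `f ∈ L` has the largest image, then
`|g(ker f) / (g(ker f) ∩ f(H))| ^ 2 ≤ |f(H)|` for all `g ∈ L`, and one can iterate.

(4) Approximately linear maps are near linear maps, with an absolute exponent. Let `R` be a
semisimple ring (for example a finite field of any order, or a group ring `F_q[G]` with `q` prime to the
order of the finite group `G`), let `V`, `W` be `R`-modules, `V` finite, and let `f : V → W` be any function
such that all `f (x + r y) - f x - r f y` (`x, y ∈ V`, `r ∈ R`) are in a set `S`. Then there is an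
`R`-linear map `g` such that `f - g` has at most `262144 |S| ^ 178402` values. (If only
`f (x + y) - f x - f y ∈ S` is supposed, the theorem for bounded exponent gives an additive map, with an
exponent which depends on the characteristic.)
-/

set_option autoImplicit false
open scoped Pointwise

universe u v w

namespace Pool.Agent.Results.MP_dd2a7c_co.Submodules

/-- `A` is covered by at most `L` cosets of `H`. -/
def Cov {Γ : Type u} [AddCommGroup Γ] (A : Finset Γ) (H : AddSubgroup Γ) (L : ℝ) : Prop :=
  ∃ T : Finset Γ, (T.card : ℝ) ≤ L ∧ ∀ a ∈ A, ∃ t ∈ T, a - t ∈ H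

/-- (1) A group of homomorphisms with images of order at most `n` is compressed by a subgroup of index
at most `n ^ 2` and a subgroup of order at most `n ^ 2`. -/
def Compression : Prop :=
  ∀ (n : ℕ) (H : Type u) (Q : Type v) [AddCommGroup H] [AddCommGroup Q]
    (L : AddSubgroup (H →+ Q)), (∀ f ∈ L, Finite f.range ∧ Nat.card f.range ≤ n) →
    ∃ (H₀ : AddSubgroup H) (P : AddSubgroup Q), Finite P ∧ Nat.card P ≤ n ^ 2 ∧ H₀.index ≠ 0 ∧
      H₀.index ≤ n ^ 2 ∧ ∀ f ∈ L, ∀ x ∈ H₀, f x ∈ P

/-- (2) Sets with small sums with their images under the members of an additive group of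
endomorphisms which contains the identity. -/
def Endomorphisms : Prop :=
  ∀ (Γ : Type u) [AddCommGroup Γ] [DecidableEq Γ] (Φ : AddSubgroup (Γ →+ Γ)),
    AddMonoidHom.id Γ ∈ Φ → ∀ (K : ℝ) (A : Finset Γ), A.Nonempty →
    (∀ φ ∈ Φ, ((A + A.image fun x => φ x).card : ℝ) ≤ K * A.card) →
    ∃ H₀ H₁ : AddSubgroup Γ, Finite H₁ ∧ H₀ ≤ H₁ ∧ (Nat.card H₁ : ℝ) ≤ 64 * K ^ 59466 * A.card ∧
      Cov A H₀ (64 * K ^ 59468) ∧ ∀ φ ∈ Φ, ∀ x ∈ H₀, φ x ∈ H₁

/-- (3) Sets with small sums with their multiples by the elements of a ring, and the converse. -/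
def Modules : Prop :=
  ∀ (R : Type w) [Ring R] (M : Type u) [AddCommGroup M] [Module R M] [DecidableEq M]
    (A : Finset M), A.Nonempty →
    (∀ K : ℝ, (∀ r : R, ((A + A.image fun x => r • x).card : ℝ) ≤ K * A.card) →
      ∃ N : Submodule R M, Finite N ∧ (Nat.card N : ℝ) ≤ 64 * K ^ 59466 * A.card ∧
        Cov A N.toAddSubgroup (64 * K ^ 59468)) ∧
    (∀ (L : ℝ) (N : Submodule R M), Finite N → (Nat.card N : ℝ) ≤ L * A.card →
      Cov A N.toAddSubgroup L →
      ∀ r : R, ((A + A.image fun x => r • x).card : ℝ) ≤ L ^ 3 * A.card)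

/-- (4) Approximately linear maps on a finite module over a semisimple ring. -/
def ApproxLinear : Prop :=
  ∀ (R : Type w) [Ring R] [IsSemisimpleRing R] (V : Type u) (W : Type v) [AddCommGroup V]
    [AddCommGroup W] [Module R V] [Module R W] [Finite V] (f : V → W) (S : Finset W),
    (∀ (x y : V) (r : R), f (x + r • y) - f x - r • f y ∈ S) →
    ∃ (g : V →ₗ[R] W) (E : Finset W), (E.card : ℝ) ≤ 262144 * (S.card : ℝ) ^ 178402 ∧
      ∀ x, f x - g x ∈ E

theorem result : Compression.{u, v} ∧ Endomorphisms.{u} ∧ Modules.{u, w} ∧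
    ApproxLinear.{u, v, w} := by
  refine ⟨?_, ?_, ?_, ?_⟩
  · intro n H Q _ _ L hL
    exact Pool.Agent.R111.PM.compress n H Q L hL
  · intro Γ _ d Φ hid K A hA hK
    have hd : d = (fun a b => Classical.propDecidable (a = b)) := Subsingleton.elim _ _
    subst hd
    obtain ⟨H₀, H₁, T, h1, h2, h3, h4, h5, h6⟩ := Pool.Agent.R111.PM.endo Φ hid K A hA hK
    exact ⟨H₀, H₁, h1, h2, h3, ⟨T, h4, h6⟩, h5⟩
  · intro R _ M _ _ _ A hA
    constructor
    · intro K hK
      obtain ⟨N, T, h1, h2, h3, h4⟩ := Pool.Agent.R111.PM.modules R K A hA hK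
      exact ⟨N, h1, h2, T, h3, h4⟩
    · intro L N hN hNc hcov r
      obtain ⟨T, hT, hcov⟩ := hcov
      exact Pool.Agent.R111.PM.converse R L A N T hNc hT hcov r
  · intro R _ _ V W _ _ _ _ _ f S hf
    exact Pool.Agent.R111.PM.approx R f S hf

end Pool.Agent.Results.MP_dd2a7c_co.Submodules
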